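import Mathlib
import Pool.Agent.ConfFlow.Combine

set_option autoImplicit false
set_option linter.unusedSectionVars false
set_option linter.unusedVariables false

open Finset

namespace Pool.Agent.Results.MP_283662_co.LogConfluentFree

/-- A multigraph without loops, with vertex type `V` and edge type `E`: every edge has an
unordered pair of two distinct ends; parallel edges are allowed. -/
structure MGraph (V E : Type) where
  ends : E → Sym2 V
  loopless : ∀ e, ¬ (ends e).IsDiag

namespace MGraph

variable {V E : Type}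

/-- The edge cut of `X`: the edges with one end in `X` and one end outside `X`. -/
def edgeCut (G : MGraph V E) (X : Set V) : Set E :=
  {e | (∃ v ∈ G.ends e, v ∈ X) ∧ ∃ w ∈ G.ends e, w ∉ X}

/-- An edge is a bridge if it forms an edge cut on its own. -/
def IsBridge (G : MGraph V E) (e : E) : Prop := ∃ X : Set V, G.edgeCut X = {e}

/-- No bridge, and no edge cut of exactly two edges that share an end. -/
def RichFlowAdmissible (G : MGraph V E) : Prop :=
  (∀ e, ¬ G.IsBridge e) ∧
    ∀ (X : Set V) (e f : E), e ≠ f → G.edgeCut X = {e, f} →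
      ∀ v, ¬ (v ∈ G.ends e ∧ v ∈ G.ends f)

/-- The number of edges at the vertex `v`. -/
noncomputable def degree (G : MGraph V E) (v : V) : ℕ := Nat.card {e : E // v ∈ G.ends e}

/-- The maximum degree. -/
noncomputable def maxDegree [Fintype V] (G : MGraph V E) : ℕ := (univ : Finset V).sup G.degree

/-- A `k`-flow: an orientation of the edges (from `src e` to `tgt e`) and integer values of
absolute value less than `k` that are conserved at every vertex. -/
structure KFlow [Fintype E] [DecidableEq V] (G : MGraph V E) (k : ℕ) where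
  src : E → V
  tgt : E → V
  ends_eq : ∀ e, G.ends e = s(src e, tgt e)
  val : E → ℤ
  conserve : ∀ v : V, ∑ e with tgt e = v, val e = ∑ e with src e = v, val e
  bound : ∀ e, |val e| < k

namespace KFlow

variable [Fintype E] [DecidableEq V] {G : MGraph V E} {k : ℕ}

/-- Every value is nonzero. -/
def NowhereZero (φ : G.KFlow k) : Prop := ∀ e, φ.val e ≠ 0

/-- The value of the edge `e` with end `v` when `e` is directed towards `v`. -/
def valIn (φ : G.KFlow k) (v : V) (e : E) : ℤ := if φ.tgt e = v then φ.val e else - φ.val e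

/-- The value of the edge `e` with end `v` when `e` is directed away from `v`. -/
def valOut (φ : G.KFlow k) (v : V) (e : E) : ℤ := if φ.src e = v then φ.val e else - φ.val e

/-- The edges `e` and `f` have a common end `v` such that, with `e` directed towards `v` and `f`
directed away from `v`, both have the same value. -/
def Confluent (φ : G.KFlow k) (e f : E) : Prop :=
  ∃ v, v ∈ G.ends e ∧ v ∈ G.ends f ∧ φ.valIn v e = φ.valOut v f

end KFlow

end MGraph

open Pool.Agent.ConfFlow in
/-- There is a constant `C` such that every rich flow admissible graph with maximum degree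
`Δ ≥ 3` has a nowhere-zero `k`-flow with `k ≤ C ln Δ` and without confluent adjacent edges. -/
theorem result : ∃ C : ℝ, ∀ (V E : Type) [Fintype V] [Fintype E] [DecidableEq V]
    (G : MGraph V E), G.RichFlowAdmissible → 3 ≤ G.maxDegree →
    ∃ k : ℕ, 2 ≤ k ∧ (k : ℝ) ≤ C * Real.log G.maxDegree ∧
      ∃ φ : G.KFlow k, φ.NowhereZero ∧ ∀ e f, e ≠ f → ¬ φ.Confluent e f := by
  classical
  refine ⟨13 * 5 ^ 39, ?_⟩
  intro V E _ _ _ G hG hΔ3
  -- orientation
  have h0 : ∀ e : E, ∃ p : V × V, G.ends e = s(p.1, p.2) := by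
    intro e
    induction hx : G.ends e using Sym2.ind with
    | _ x y => exact ⟨(x, y), rfl⟩
  choose p hp using h0
  let s : E → V := fun e => (p e).1
  let t : E → V := fun e => (p e).2
  have hst : ∀ e, G.ends e = s(s e, t e) := hp
  have hmem : ∀ v e, v ∈ G.ends e ↔ (s e = v ∨ t e = v) := by
    intro v e
    rw [hst e, Sym2.mem_iff]
    constructor
    · rintro (h | h)
      · exact Or.inl h.symm
      · exact Or.inr h.symm
    · rintro (h | h)
      · exact Or.inl h.symm
      · exact Or.inr h.symm
  have hF : ∀ g ∈ (univ : Finset E), s g ≠ t g := by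
    intro g _ h
    apply G.loopless g
    rw [hst g, Sym2.mk_isDiag_iff]
    exact h
  have hcut : ∀ (Z : Finset V) (e : E), e ∈ cut univ s t Z ↔ e ∈ G.edgeCut (Z : Set V) := by
    intro Z e
    rw [mem_cut]
    unfold MGraph.edgeCut
    change _ ↔ ((∃ v ∈ G.ends e, v ∈ (Z : Set V)) ∧ ∃ w ∈ G.ends e, w ∉ (Z : Set V))
    constructor
    · rintro ⟨_, h⟩
      by_cases h1 : s e ∈ Z
      · have h2 : t e ∉ Z := fun h2 => h ⟨fun _ => h2, fun _ => h1⟩
        exact ⟨⟨s e, (hmem _ _).mpr (Or.inl rfl), mem_coe.mpr h1⟩,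
          ⟨t e, (hmem _ _).mpr (Or.inr rfl), fun h => h2 (mem_coe.mp h)⟩⟩
      · have h2 : t e ∈ Z := by
          by_contra h2
          exact h ⟨fun h => absurd h h1, fun h => absurd h h2⟩
        exact ⟨⟨t e, (hmem _ _).mpr (Or.inr rfl), mem_coe.mpr h2⟩,
          ⟨s e, (hmem _ _).mpr (Or.inl rfl), fun h => h1 (mem_coe.mp h)⟩⟩
    · rintro ⟨⟨v, hv, hvZ⟩, ⟨w, hw, hwZ⟩⟩
      refine ⟨mem_univ _, ?_⟩
      rw [hmem] at hv hw
      rw [mem_coe] at hvZ hwZ
      intro hiff
      rcases hv with rfl | rfl <;> rcases hw with rfl | rfl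
      · exact hwZ hvZ
      · exact hwZ (hiff.mp hvZ)
      · exact hwZ (hiff.mpr hvZ)
      · exact hwZ hvZ
  have hR : Rich (univ : Finset E) s t := by
    constructor
    · intro Z hZ
      by_contra hlt
      have h1 : (cut univ s t Z).card = 1 := by
        have := card_pos.mpr hZ
        omega
      obtain ⟨e, he⟩ := card_eq_one.mp h1
      apply hG.1 e
      refine ⟨(Z : Set V), ?_⟩
      ext g
      rw [← hcut, he, mem_singleton, Set.mem_singleton_iff]
    · intro Z g g' hne hZ v hv
      apply hG.2 (Z : Set V) g g' hne _ v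
      · exact ⟨(hmem v g).mpr hv.1, (hmem v g').mpr hv.2⟩
      · ext x
        rw [← hcut, hZ, mem_insert, mem_singleton, Set.mem_insert_iff, Set.mem_singleton_iff]
  have hdeg : ∀ v, ((univ : Finset E).filter (fun e => s e = v ∨ t e = v)).card ≤ G.maxDegree := by
    intro v
    have h1 : G.degree v = ((univ : Finset E).filter (fun e => s e = v ∨ t e = v)).card := by
      unfold MGraph.degree
      rw [Nat.card_eq_fintype_card, Fintype.card_subtype]
      congr 1
      ext e
      rw [mem_filter, mem_filter, hmem]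
    rw [← h1]
    exact Finset.le_sup (f := G.degree) (mem_univ v)
  set Δ : ℕ := G.maxDegree with hΔ
  have hne : (univ : Finset E).Nonempty := by
    by_contra hemp
    rw [Finset.not_nonempty_iff_eq_empty] at hemp
    have h1 : G.maxDegree ≤ 0 := by
      unfold MGraph.maxDegree
      apply Finset.sup_le
      intro v _
      unfold MGraph.degree
      rw [Nat.card_eq_fintype_card, Fintype.card_subtype]
      have : (univ : Finset E).filter (fun e => v ∈ G.ends e) = ∅ := by
        rw [hemp]
        exact filter_empty _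
      rw [this, card_empty]
    omega
  have hn : Δ < 2 ^ (Nat.log 2 Δ + 1) := Nat.lt_pow_succ_log_self (by norm_num) Δ
  obtain ⟨Φ, h1, h2, h3, h4⟩ := int_flow hn hF hR hdeg hne
  refine ⟨(4 * (Nat.log 2 Δ + 1) + 1) * 5 ^ 39, ?_, ?_, ?_⟩
  · have : 2 ≤ (4 * (Nat.log 2 Δ + 1) + 1) := by omega
    calc 2 ≤ (4 * (Nat.log 2 Δ + 1) + 1) := this
      _ ≤ (4 * (Nat.log 2 Δ + 1) + 1) * 5 ^ 39 := Nat.le_mul_of_pos_right _ (by norm_num)
  · have hL1 : (1 : ℝ) ≤ Real.log Δ := by
      rw [Real.le_log_iff_exp_le (by positivity)]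
      have h5 := Real.exp_one_lt_d9
      have h6 : (3 : ℝ) ≤ Δ := by exact_mod_cast hΔ3
      linarith
    have hL2 : (Nat.log 2 Δ : ℝ) * Real.log 2 ≤ Real.log Δ := by
      have h5 : 2 ^ Nat.log 2 Δ ≤ Δ := Nat.pow_log_le_self 2 (by omega)
      have h6 : ((2 : ℝ) ^ Nat.log 2 Δ) ≤ Δ := by exact_mod_cast h5
      have h7 := Real.log_le_log (by positivity) h6
      rwa [Real.log_pow] at h7
    have hL3 : (0.69 : ℝ) < Real.log 2 := by
      have := Real.log_two_gt_d9
      linarith
    have hL4 : (Nat.log 2 Δ : ℝ) ≤ 1.5 * Real.log Δ := by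
      have h5 : (Nat.log 2 Δ : ℝ) * 0.69 ≤ Real.log Δ :=
        (mul_le_mul_of_nonneg_left hL3.le (Nat.cast_nonneg _)).trans hL2
      linarith
    have h5 : (4 * ((Nat.log 2 Δ : ℝ) + 1) + 1) ≤ 13 * Real.log Δ := by linarith
    have h6 : (((4 * (Nat.log 2 Δ + 1) + 1) * 5 ^ 39 : ℕ) : ℝ)
        = (4 * ((Nat.log 2 Δ : ℝ) + 1) + 1) * 5 ^ 39 := by
      rw [Nat.cast_mul, Nat.cast_pow]
      push_cast
      rfl
    rw [h6]
    calc (4 * ((Nat.log 2 Δ : ℝ) + 1) + 1) * 5 ^ 39 ≤ 13 * Real.log Δ * 5 ^ 39 :=
          mul_le_mul_of_nonneg_right h5 (by positivity)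
      _ = 13 * 5 ^ 39 * Real.log Δ := by ring
  · let φ : G.KFlow ((4 * (Nat.log 2 Δ + 1) + 1) * 5 ^ 39) :=
      { src := s
        tgt := t
        ends_eq := hst
        val := Φ
        conserve := by
          intro v
          have := h1 v
          unfold bd at this
          linarith
        bound := by
          intro e
          have := h2 e
          push_cast at this ⊢
          exact this }
    have hout : ∀ v e, v ∈ G.ends e → φ.valOut v e = inc s t v e * Φ e := by
      intro v e hv
      rw [hmem] at hv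
      have hse := hF e (mem_univ e)
      unfold MGraph.KFlow.valOut
      show (if s e = v then Φ e else - Φ e) = _
      rcases hv with rfl | rfl
      · rw [inc_src hse, if_pos rfl, one_mul]
      · rw [inc_tgt hse, if_neg hse]
        ring
    have hin : ∀ v e, v ∈ G.ends e → φ.valIn v e = - (inc s t v e * Φ e) := by
      intro v e hv
      rw [hmem] at hv
      have hse := hF e (mem_univ e)
      unfold MGraph.KFlow.valIn
      show (if t e = v then Φ e else - Φ e) = _
      rcases hv with rfl | rfl
      · rw [inc_src hse, if_neg (Ne.symm hse), one_mul]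
      · rw [inc_tgt hse, if_pos rfl]
        ring
    refine ⟨φ, fun e => h3 e (mem_univ e), ?_⟩
    rintro e f hef ⟨v, hve, hvf, hval⟩
    rw [hin v e hve, hout v f hvf] at hval
    apply h4 v e (mem_univ e) f (mem_univ f) hef ((hmem v e).mp hve) ((hmem v f).mp hvf)
    linarith

end Pool.Agent.Results.MP_283662_co.LogConfluentFree
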